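import Mathlib

/-! # The lower bound for the absolute square size is sharp for `s = 4` -/

set_option autoImplicit false

open Polynomial Filter Topology

namespace Pool.Agent.Results.MP_bf7c2b_nt.SharpForFour

/-! ## The polynomials -/

/-- the polynomial `x^(2K) - x^K + (2x^2-1)^2` -/
noncomputable def P (K : ℕ) : ℤ[X] := X ^ (2 * K) + (-X ^ K + (2 * X ^ 2 - 1) ^ 2)

lemma deg_aux (K : ℕ) (hK : 3 ≤ K) : (-X ^ K + (2 * X ^ 2 - 1) ^ 2 : ℤ[X]).degree < (2 * K : ℕ) := by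
  have h1 : (-X ^ K + (2 * X ^ 2 - 1) ^ 2 : ℤ[X]).natDegree ≤ K + 2 := by
    have : (2 * X ^ 2 - 1 : ℤ[X]).natDegree ≤ 2 := by compute_degree
    refine (natDegree_add_le _ _).trans (max_le ?_ ?_)
    · rw [natDegree_neg, natDegree_X_pow]
      omega
    · refine natDegree_pow_le.trans ?_
      omega
  refine (degree_le_natDegree).trans_lt ?_
  exact_mod_cast (by omega)

lemma P_monic (K : ℕ) (hK : 3 ≤ K) : (P K).Monic := monic_X_pow_add (deg_aux K hK)

lemma P_natDegree (K : ℕ) (hK : 3 ≤ K) : (P K).natDegree = 2 * K := by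
  apply natDegree_eq_of_degree_eq_some
  rw [P, degree_add_eq_left_of_degree_lt, degree_X_pow]
  rw [degree_X_pow]
  exact deg_aux K hK

lemma q_irr : Irreducible ((X ^ 2 + X + 1 : ℤ[X]).map (algebraMap ℤ (ZMod 2))) := by
  have h1 : (X ^ 2 + X + 1 : ℤ[X]).map (algebraMap ℤ (ZMod 2)) = X ^ 2 + X + 1 := by
    simp
  rw [h1]
  have hd : (X ^ 2 + X + 1 : (ZMod 2)[X]).natDegree = 2 := by compute_degree!
  apply irreducible_of_degree_le_three_of_not_isRoot
  · rw [hd]; simp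
  · intro x
    rw [IsRoot, eval_add, eval_add, eval_pow, eval_X, eval_one]
    revert x
    decide

lemma P_irreducible (j : ℕ) : Irreducible (P (4 ^ (j + 1))) := by
  have hK : 3 ≤ 4 ^ (j + 1) := by
    have : 1 ≤ 4 ^ j := Nat.one_le_pow _ _ (by norm_num)
    rw [pow_succ]; omega
  set K := 4 ^ (j + 1) with hKdef
  have hmonic := P_monic K hK
  have hqm : (X ^ 2 + X + 1 : ℤ[X]).Monic := by monicity!
  apply generalizedEisenstein (K := ZMod 2) q_irr hqm hmonic.isPrimitive (p := K)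
  · rw [P_natDegree K hK]; omega
  · rw [hmonic.leadingCoeff]; simp
  · rw [hmonic.leadingCoeff]
    have h2 : K = 2 ^ (2 * (j + 1)) := by rw [hKdef, pow_mul]; norm_num
    have h3 : ((X ^ 2 + X + 1 : (ZMod 2)[X])) ^ K = X ^ (2 * K) + X ^ K + 1 := by
      rw [h2, add_pow_char_pow, add_pow_char_pow, ← pow_mul, one_pow]
    simp only [P, Polynomial.map_add, Polynomial.map_neg, Polynomial.map_pow, Polynomial.map_sub,
      Polynomial.map_mul, Polynomial.map_X, Polynomial.map_one, Polynomial.map_ofNat, map_one,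
      one_mul]
    rw [h3]
    have h4 : (2 : (ZMod 2)[X]) = 0 := by
      have : ((2 : ℕ) : (ZMod 2)[X]) = 0 := CharP.cast_eq_zero _ 2
      exact_mod_cast this
    have h5 : (-X ^ K : (ZMod 2)[X]) = X ^ K := by
      have : (2 : (ZMod 2)[X]) * X ^ K = 0 := by rw [h4, zero_mul]
      linear_combination -this
    rw [h5, h4]
    ring
  · -- the remainder is `6 X + 4`
    obtain ⟨m, hm⟩ : ∃ m, K = 3 * m + 1 := by
      refine ⟨K / 3, ?_⟩
      have : K % 3 = 1 := by rw [hKdef, Nat.pow_mod]; norm_num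
      omega
    have hX3 : ∀ n : ℕ, (X ^ 2 + X + 1 : ℤ[X]) ∣ X ^ (3 * n) - 1 := by
      intro n
      have h1 : (X ^ 3 - 1 : ℤ[X]) ∣ (X ^ 3) ^ n - 1 ^ n := sub_dvd_pow_sub_pow _ _ n
      rw [one_pow, ← pow_mul] at h1
      exact (Dvd.intro (X - 1) (by ring)).trans h1
    have hdvd : (X ^ 2 + X + 1 : ℤ[X]) ∣ P K - (C 6 * X + C 4) := by
      have e : P K - (C 6 * X + C 4) = X ^ 2 * (X ^ (3 * (2 * m)) - 1) - X * (X ^ (3 * m) - 1) +
          (X ^ 2 + X + 1) * (4 * X ^ 2 - 4 * X - 3) := by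
        have c6 : (C 6 : ℤ[X]) = 6 := rfl
        have c4 : (C 4 : ℤ[X]) = 4 := rfl
        rw [P, hm, c6, c4]
        ring
      rw [e]
      exact dvd_add (dvd_sub (Dvd.dvd.mul_left (hX3 _) _) (Dvd.dvd.mul_left (hX3 _) _))
        (dvd_mul_right _ _)
    obtain ⟨g, hg⟩ := hdvd
    have hmod : P K %ₘ (X ^ 2 + X + 1) = C 6 * X + C 4 := by
      refine (div_modByMonic_unique g (C 6 * X + C 4) hqm ⟨?_, ?_⟩).2
      · rw [← hg]; ring
      · have h1 : (X ^ 2 + X + 1 : ℤ[X]).degree = 2 := by compute_degree!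
        rw [h1]
        refine (degree_linear_le).trans_lt ?_
        exact_mod_cast (by norm_num : (1 : ℕ) < 2)
    rw [hmod]
    intro h
    have h1 := congrArg (fun p => p.coeff 1) h
    simp only [coeff_map, coeff_add, coeff_C_mul, coeff_X_one, mul_one, coeff_C_succ, add_zero,
      coeff_zero] at h1
    rw [Ideal.Quotient.eq_zero_iff_mem] at h1
    have h2 : RingHom.ker (algebraMap ℤ (ZMod 2)) = Ideal.span {((2 : ℕ) : ℤ)} := by
      exact ZMod.ker_intCastRingHom 2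
    rw [h2, Ideal.span_singleton_pow, Ideal.mem_span_singleton] at h1
    norm_num at h1

/-! ## Solutions of `(2y-1)^2 = y^L - y^(2L)` in the disc `|y| ≤ 3/4` -/

/-- the radius `√3/2` -/
noncomputable def rr : ℝ := √3 / 2

lemma rr_sq : rr ^ 2 = 3 / 4 := by
  unfold rr
  rw [div_pow, Real.sq_sqrt (by norm_num)]
  norm_num

lemma rr_pos : 0 < rr := by unfold rr; positivity

lemma rr_lt : rr < 1 := by
  have := rr_sq
  nlinarith [rr_pos]

/-- smallness conditions on `L` -/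
def Good (L : ℕ) : Prop := 2 ≤ L ∧ 4 * L * rr ^ L ≤ 1 ∧ 24 * L * rr ^ L < 1

lemma good_eventually : ∀ᶠ L : ℕ in atTop, Good L := by
  have h1 : Tendsto (fun L : ℕ => 24 * ((L : ℝ) ^ 1 * rr ^ L)) atTop (𝓝 (24 * 0)) :=
    (tendsto_pow_const_mul_const_pow_of_abs_lt_one 1
      (by rw [abs_of_pos rr_pos]; exact rr_lt)).const_mul 24
  rw [mul_zero] at h1
  filter_upwards [h1.eventually (gt_mem_nhds one_pos), eventually_ge_atTop 2] with L hL h2
  have h3 : 24 * (L : ℝ) * rr ^ L < 1 := by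
    have : 24 * (L : ℝ) * rr ^ L = 24 * ((L : ℝ) ^ 1 * rr ^ L) := by ring
    rw [this]; exact hL
  refine ⟨h2, ?_, h3⟩
  have h4 : 0 ≤ (L : ℝ) * rr ^ L := by have := rr_pos; positivity
  nlinarith

section sol

variable {L : ℕ} (hL : Good L)

/-- a solution in the disc -/
def Sol (L : ℕ) (y : ℂ) : Prop := ‖y‖ ≤ 3 / 4 ∧ (2 * y - 1) ^ 2 = y ^ L - y ^ (2 * L)

lemma sol_close {y : ℂ} (hy : Sol L y) : ‖y - 1 / 2‖ ≤ rr ^ L := by
  obtain ⟨h1, h2⟩ := hy
  have h3 : ‖2 * y - 1‖ ^ 2 ≤ 2 * (3 / 4) ^ L := by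
    rw [← norm_pow, h2]
    have e1 : ‖y‖ ^ L ≤ (3 / 4) ^ L := pow_le_pow_left₀ (norm_nonneg _) h1 _
    have e2 : ‖y‖ ^ (2 * L) ≤ (3 / 4) ^ L := by
      calc ‖y‖ ^ (2 * L) ≤ (3 / 4) ^ (2 * L) := pow_le_pow_left₀ (norm_nonneg _) h1 _
        _ ≤ (3 / 4) ^ L := pow_le_pow_of_le_one (by norm_num) (by norm_num) (by omega)
    calc ‖y ^ L - y ^ (2 * L)‖ ≤ ‖y ^ L‖ + ‖y ^ (2 * L)‖ := norm_sub_le _ _
      _ = ‖y‖ ^ L + ‖y‖ ^ (2 * L) := by rw [norm_pow, norm_pow]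
      _ ≤ 2 * (3 / 4) ^ L := by linarith
  have h4 : (3 / 4 : ℝ) ^ L = (rr ^ L) ^ 2 := by
    rw [← rr_sq, ← pow_mul, ← pow_mul, mul_comm]
  have h5 : ‖2 * y - 1‖ = 2 * ‖y - 1 / 2‖ := by
    have : 2 * y - 1 = 2 * (y - 1 / 2) := by ring
    rw [this, norm_mul, Complex.norm_ofNat]
  rw [h4, h5] at h3
  have h6 : 0 ≤ rr ^ L := by have := rr_pos; positivity
  by_contra hcon
  push Not at hcon
  nlinarith [norm_nonneg (y - 1 / 2)]

lemma sol_norm {y : ℂ} (hy : Sol L y) :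
    1 / 2 - rr ^ L ≤ ‖y‖ ∧ ‖y‖ ≤ 1 / 2 + rr ^ L := by
  have h1 := sol_close hy
  have h2 : ‖(1 / 2 : ℂ)‖ = 1 / 2 := by norm_num
  constructor
  · have := norm_sub_norm_le (1 / 2 : ℂ) (1 / 2 - y)
    rw [sub_sub_cancel, h2, norm_sub_rev] at this
    linarith
  · have := norm_add_le (1 / 2 : ℂ) (y - 1 / 2)
    rw [add_sub_cancel, h2] at this
    linarith

include hL in
lemma rr_small : rr ^ L ≤ 1 / 8 := by
  obtain ⟨h1, h2, h3⟩ := hL
  have : (2 : ℝ) ≤ L := by exact_mod_cast h1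
  have h6 : 0 ≤ rr ^ L := by have := rr_pos; positivity
  nlinarith

include hL in
lemma pow_upper : (1 / 2 + rr ^ L) ^ L ≤ 2 * (1 / 2) ^ L := by
  have h6 : 0 ≤ rr ^ L := by have := rr_pos; positivity
  have e : (1 / 2 + rr ^ L) ^ L = (1 / 2) ^ L * (1 + 2 * rr ^ L) ^ L := by
    rw [← mul_pow]; congr 1; ring
  rw [e]
  have h1 : (1 + 2 * rr ^ L) ^ L ≤ Real.exp (L * (2 * rr ^ L)) := by
    rw [Real.exp_nat_mul]
    exact pow_le_pow_left₀ (by positivity) (by rw [add_comm]; exact Real.add_one_le_exp _) _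
  have h2 : Real.exp (L * (2 * rr ^ L)) ≤ Real.exp (1 / 2) := by
    apply Real.exp_le_exp.mpr
    have := hL.2.1
    linarith
  have h3 : Real.exp (1 / 2) ≤ 2 := by
    have h4 : Real.exp (1 / 2) ^ 2 = Real.exp 1 := by
      rw [← Real.exp_nat_mul]; norm_num
    have h5 := Real.exp_one_lt_d9
    by_contra hcon
    push Not at hcon
    nlinarith
  have h4 : (0 : ℝ) ≤ (1 / 2) ^ L := by positivity
  nlinarith

include hL in
lemma pow_lower : (1 / 2) * (1 / 2) ^ L ≤ (1 / 2 - rr ^ L) ^ L := by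
  have h6 : 0 ≤ rr ^ L := by have := rr_pos; positivity
  have hs := rr_small hL
  have e : (1 / 2 - rr ^ L) ^ L = (1 / 2) ^ L * (1 + -(2 * rr ^ L)) ^ L := by
    rw [← mul_pow]; congr 1; ring
  rw [e]
  have h1 := one_add_mul_le_pow (a := -(2 * rr ^ L)) (by linarith) L
  have h2 := hL.2.1
  have h3 : 1 / 2 ≤ (1 + -(2 * rr ^ L)) ^ L := by
    refine le_trans ?_ h1
    linarith
  have h4 : (0 : ℝ) ≤ (1 / 2) ^ L := by positivity
  nlinarith

include hL in
lemma half_pow_small : (1 / 2 : ℝ) ^ L ≤ 1 / 4 := by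
  calc (1 / 2 : ℝ) ^ L ≤ (1 / 2) ^ 2 := pow_le_pow_of_le_one (by norm_num) (by norm_num) hL.1
    _ = 1 / 4 := by norm_num

include hL in
/-- a solution is not too close to `1/2` -/
lemma sol_far {y : ℂ} (hy : Sol L y) : (1 / 4) * (1 / 2) ^ L ≤ ‖2 * y - 1‖ ^ 2 := by
  obtain ⟨n1, n2⟩ := sol_norm hy
  have hs := rr_small hL
  have hq := half_pow_small hL
  rw [← norm_pow, hy.2]
  have h1 : (1 / 2) * (1 / 2) ^ L ≤ ‖y‖ ^ L :=
    (pow_lower hL).trans (pow_le_pow_left₀ (by linarith) n1 _)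
  have h2 : ‖y‖ ^ L ≤ 1 / 2 := by
    refine (pow_le_pow_left₀ (norm_nonneg _) n2 _).trans ((pow_upper hL).trans ?_)
    linarith
  have h3 : y ^ L - y ^ (2 * L) = y ^ L * (1 - y ^ L) := by ring
  rw [h3, norm_mul, norm_pow]
  have h4 : 1 / 2 ≤ ‖1 - y ^ L‖ := by
    have := norm_sub_norm_le (1 : ℂ) (y ^ L)
    rw [norm_one, norm_pow] at this
    linarith
  have h5 : (0 : ℝ) ≤ ‖y‖ ^ L := by positivity
  nlinarith

lemma pow_sub_pow_norm (y z : ℂ) (M : ℝ) (hy : ‖y‖ ≤ M) (hz : ‖z‖ ≤ M) (n : ℕ) :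
    ‖y ^ (n + 1) - z ^ (n + 1)‖ ≤ (n + 1) * M ^ n * ‖y - z‖ := by
  have hM : 0 ≤ M := (norm_nonneg _).trans hy
  rw [← Commute.geom_sum₂_mul (Commute.all y z), norm_mul]
  apply mul_le_mul_of_nonneg_right _ (norm_nonneg _)
  refine (norm_sum_le _ _).trans ?_
  have : ∀ i ∈ Finset.range (n + 1), ‖y ^ i * z ^ (n + 1 - 1 - i)‖ ≤ M ^ n := by
    intro i hi
    rw [Finset.mem_range] at hi
    rw [norm_mul, norm_pow, norm_pow]
    calc ‖y‖ ^ i * ‖z‖ ^ (n + 1 - 1 - i) ≤ M ^ i * M ^ (n + 1 - 1 - i) := by gcongr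
      _ = M ^ n := by rw [← pow_add]; congr 1; omega
  refine (Finset.sum_le_sum this).trans ?_
  simp

include hL in
lemma sol_pair {y z : ℂ} (hy : Sol L y) (hz : Sol L z) (hne : y ≠ z) :
    ‖y + z - 1‖ ≤ 3 * L * (1 / 2) ^ L := by
  obtain ⟨-, y2⟩ := sol_norm hy
  obtain ⟨-, z2⟩ := sol_norm hz
  have hs := rr_small hL
  have hu := pow_upper hL
  have hq := half_pow_small hL
  have hr0 : 0 ≤ rr ^ L := by have := rr_pos; positivity
  set M := 1 / 2 + rr ^ L with hM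
  have hM0 : 0 < M := by linarith
  have hM1 : 1 / 2 ≤ M := by linarith
  have hL0 : 1 ≤ L := by have := hL.1; omega
  obtain ⟨n, hn⟩ : ∃ n, L = n + 1 := ⟨L - 1, by omega⟩
  have e1 : ‖y ^ L - z ^ L‖ ≤ L * (4 * (1 / 2) ^ L) * ‖y - z‖ := by
    have h := pow_sub_pow_norm y z M y2 z2 n
    rw [hn]
    refine h.trans ?_
    push_cast
    have h2 : M ^ n ≤ 4 * (1 / 2) ^ (n + 1) := by
      have h3 : M ^ (n + 1) ≤ 2 * (1 / 2) ^ (n + 1) := by rw [← hn]; exact hu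
      have h4 : M ^ n * (1 / 2) ≤ M ^ (n + 1) := by
        rw [pow_succ]; gcongr
      linarith
    gcongr
  have e2 : ‖y ^ (2 * L) - z ^ (2 * L)‖ ≤ (2 * L) * (4 * (1 / 2) ^ L) * ‖y - z‖ := by
    have h := pow_sub_pow_norm y z M y2 z2 (2 * n + 1)
    rw [show 2 * n + 1 + 1 = 2 * L by omega] at h
    refine h.trans ?_
    have h2 : M ^ (2 * n + 1) ≤ 4 * (1 / 2) ^ L := by
      have h3 : M ^ L * M ^ n = M ^ (2 * n + 1) := by rw [← pow_add]; congr 1; omega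
      rw [← h3]
      have h5 : M ^ n ≤ 1 := pow_le_one₀ hM0.le (by linarith)
      have h6 : 0 ≤ M ^ L := by positivity
      nlinarith
    have h3 : ((2 * n + 1 : ℕ) : ℝ) + 1 = 2 * L := by
      rw [hn]; push_cast; ring
    rw [h3]
    gcongr
  have key : 4 * (y - z) * (y + z - 1) = (y ^ L - z ^ L) - (y ^ (2 * L) - z ^ (2 * L)) := by
    have := hy.2
    have := hz.2
    linear_combination hy.2 - hz.2
  have h1 : 4 * ‖y - z‖ * ‖y + z - 1‖ ≤ 12 * L * (1 / 2) ^ L * ‖y - z‖ := by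
    have : 4 * ‖y - z‖ * ‖y + z - 1‖ = ‖4 * (y - z) * (y + z - 1)‖ := by
      rw [norm_mul, norm_mul, Complex.norm_ofNat]
    rw [this, key]
    refine (norm_sub_le _ _).trans ?_
    linarith
  have h2 : 0 < ‖y - z‖ := norm_pos_iff.mpr (sub_ne_zero.mpr hne)
  have h3 : ‖y - z‖ * (4 * ‖y + z - 1‖) ≤ ‖y - z‖ * (12 * L * (1 / 2) ^ L) := by linarith
  have h4 := le_of_mul_le_mul_left h3 h2
  linarith

include hL in
/-- there are at most two solutions -/
lemma not_three {x y z : ℂ} (hx : Sol L x) (hy : Sol L y) (hz : Sol L z) (h1 : x ≠ y)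
    (h2 : x ≠ z) (h3 : y ≠ z) : False := by
  have a1 := sol_pair hL hx hy h1
  have a2 := sol_pair hL hx hz h2
  have a3 := sol_pair hL hy hz h3
  have e : 2 * x - 1 = (x + y - 1) + (x + z - 1) - (y + z - 1) := by ring
  have h4 : ‖2 * x - 1‖ ≤ 9 * L * (1 / 2) ^ L := by
    rw [e]
    refine (norm_sub_le _ _).trans ?_
    have := norm_add_le (x + y - 1) (x + z - 1)
    linarith
  have h5 := sol_far hL hx
  -- `(1/2)^L ≤ (rr^L)^2`
  have h6 : (1 / 2 : ℝ) ^ L ≤ (rr ^ L) ^ 2 := by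
    rw [← pow_mul, mul_comm L 2, pow_mul, rr_sq]
    exact pow_le_pow_left₀ (by norm_num) (by norm_num) _
  have h7 := hL.2.2
  have hr0 : 0 ≤ rr ^ L := by have := rr_pos; positivity
  have hp : (0 : ℝ) < (1 / 2) ^ L := by positivity
  have h8 : ‖2 * x - 1‖ ^ 2 ≤ (9 * L * (1 / 2) ^ L) ^ 2 :=
    pow_le_pow_left₀ (norm_nonneg _) h4 2
  have h9 : (9 * L * (1 / 2 : ℝ) ^ L) ^ 2 = 81 * L ^ 2 * (1 / 2) ^ L * (1 / 2) ^ L := by ring
  have h10 : (L : ℝ) ^ 2 * (1 / 2) ^ L ≤ (L * rr ^ L) ^ 2 := by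
    rw [mul_pow]; gcongr
  have h11 : (L * rr ^ L) ^ 2 < (1 / 24) ^ 2 := by
    apply pow_lt_pow_left₀ _ (by positivity) (by norm_num)
    linarith
  have h12 : 81 * (L : ℝ) ^ 2 * (1 / 2) ^ L * (1 / 2) ^ L < (1 / 4) * (1 / 2) ^ L := by
    apply mul_lt_mul_of_pos_right _ hp
    have : 81 * (L : ℝ) ^ 2 * (1 / 2) ^ L = 81 * ((L : ℝ) ^ 2 * (1 / 2) ^ L) := by ring
    rw [this]
    norm_num at h11 ⊢
    linarith
  rw [h9] at h8
  linarith

include hL in
lemma real_sols : ∃ y₁ y₂ : ℝ, 0 < y₁ ∧ y₁ < 1 / 2 ∧ 1 / 2 < y₂ ∧ y₂ < 3 / 4 ∧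
    Sol L (y₁ : ℂ) ∧ Sol L (y₂ : ℂ) := by
  have hL1 := hL.1
  let f : ℝ → ℝ := fun y => (2 * y - 1) ^ 2 - y ^ L + y ^ (2 * L)
  have hf : Continuous f := by
    simp only [f]
    fun_prop
  have f0 : 0 < f 0 := by
    simp only [f]
    rw [zero_pow (by omega), zero_pow (by omega)]
    norm_num
  have fh : f (1 / 2) < 0 := by
    simp only [f]
    have hq := half_pow_small hL
    have hp : (0 : ℝ) < (1 / 2) ^ L := by positivity
    have e : (1 / 2 : ℝ) ^ (2 * L) = (1 / 2) ^ L * (1 / 2) ^ L := by rw [two_mul, pow_add]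
    rw [e]
    nlinarith
  have f3 : 0 < f (3 / 4) := by
    simp only [f]
    have h1 : (3 / 4 : ℝ) ^ L = (rr ^ L) ^ 2 := by
      rw [← rr_sq, ← pow_mul, ← pow_mul, mul_comm]
    have h2 := rr_small hL
    have hr0 : 0 ≤ rr ^ L := by have := rr_pos; positivity
    have h3 : (0 : ℝ) ≤ (3 / 4) ^ (2 * L) := by positivity
    have h4 : (3 / 4 : ℝ) ^ L ≤ 1 / 64 := by rw [h1]; nlinarith
    norm_num at h4 ⊢
    linarith
  obtain ⟨y₁, hy₁, e₁⟩ := intermediate_value_Icc' (show (0 : ℝ) ≤ 1 / 2 by norm_num)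
    hf.continuousOn (show (0 : ℝ) ∈ Set.Icc (f (1 / 2)) (f 0) from ⟨fh.le, f0.le⟩)
  obtain ⟨y₂, hy₂, e₂⟩ := intermediate_value_Icc (show (1 / 2 : ℝ) ≤ 3 / 4 by norm_num)
    hf.continuousOn (show (0 : ℝ) ∈ Set.Icc (f (1 / 2)) (f (3 / 4)) from ⟨fh.le, f3.le⟩)
  have a1 : 0 < y₁ := by
    rcases hy₁.1.eq_or_lt with h | h
    · rw [← h] at e₁; linarith
    · exact h
  have a2 : y₁ < 1 / 2 := by
    rcases hy₁.2.eq_or_lt with h | h
    · rw [h] at e₁; linarith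
    · exact h
  have a3 : 1 / 2 < y₂ := by
    rcases hy₂.1.eq_or_lt with h | h
    · rw [← h] at e₂; linarith
    · exact h
  have a4 : y₂ < 3 / 4 := by
    rcases hy₂.2.eq_or_lt with h | h
    · rw [h] at e₂; linarith
    · exact h
  refine ⟨y₁, y₂, a1, a2, a3, a4, ⟨?_, ?_⟩, ⟨?_, ?_⟩⟩
  · rw [Complex.norm_real, Real.norm_of_nonneg a1.le]; linarith
  · have : (2 * y₁ - 1) ^ 2 = y₁ ^ L - y₁ ^ (2 * L) := by
      simp only [f] at e₁; linarith
    exact_mod_cast this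
  · rw [Complex.norm_real, Real.norm_of_nonneg (by linarith)]; linarith
  · have : (2 * y₂ - 1) ^ 2 = y₂ ^ L - y₂ ^ (2 * L) := by
      simp only [f] at e₂; linarith
    exact_mod_cast this

end sol

/-! ## The roots -/

lemma root_iff (L : ℕ) (z : ℂ) :
    aeval z (P (2 * L)) = 0 ↔ (2 * z ^ 2 - 1) ^ 2 = (z ^ 2) ^ L - (z ^ 2) ^ (2 * L) := by
  have e : aeval z (P (2 * L)) =
      (2 * z ^ 2 - 1) ^ 2 - ((z ^ 2) ^ L - (z ^ 2) ^ (2 * L)) := by
    rw [P]
    simp only [map_add, map_neg, map_pow, map_sub, map_mul, aeval_X, map_one, map_ofNat]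
    ring
  rw [e, sub_eq_zero]

section roots

variable {L : ℕ} (hL : Good L)

include hL in
/-- the real roots -/
lemma real_root_iff {y₁ y₂ : ℝ} (p1 : 0 < y₁) (p2 : y₁ < 1 / 2) (p3 : 1 / 2 < y₂)
    (_p4 : y₂ < 3 / 4) (s1 : Sol L (y₁ : ℂ)) (s2 : Sol L (y₂ : ℂ)) (z : ℂ) :
    (aeval z (P (2 * L)) = 0 ∧ z.im = 0) ↔
      z = (√y₁ : ℝ) ∨ z = (-√y₁ : ℝ) ∨ z = (√y₂ : ℝ) ∨ z = (-√y₂ : ℝ) := by
  have sq1 : ((√y₁ : ℝ) : ℂ) ^ 2 = y₁ := by
    rw [← Complex.ofReal_pow, Real.sq_sqrt p1.le]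
  have sq2 : ((√y₂ : ℝ) : ℂ) ^ 2 = y₂ := by
    rw [← Complex.ofReal_pow, Real.sq_sqrt (by linarith)]
  constructor
  · rintro ⟨h1, h2⟩
    rw [root_iff] at h1
    obtain ⟨x, rfl⟩ : ∃ x : ℝ, z = x := ⟨z.re, Complex.ext rfl (by simpa using h2)⟩
    -- the real equation
    have h3 : (2 * x ^ 2 - 1) ^ 2 = (x ^ 2) ^ L - (x ^ 2) ^ (2 * L) := by exact_mod_cast h1
    have h4 : x ^ 2 < 3 / 4 := by
      by_contra hcon
      push Not at hcon
      have e : (x ^ 2) ^ (2 * L) = ((x ^ 2) ^ L) ^ 2 := by rw [← pow_mul _ L, mul_comm]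
      have h5 : ((x ^ 2) ^ L - 1 / 2) ^ 2 + (2 * x ^ 2 - 1) ^ 2 = 1 / 4 := by
        rw [h3, e]; ring
      have h6 : 1 / 4 ≤ (2 * x ^ 2 - 1) ^ 2 := by nlinarith
      have h7 : ((x ^ 2) ^ L - 1 / 2) ^ 2 = 0 := by
        have := sq_nonneg ((x ^ 2) ^ L - 1 / 2)
        linarith
      have h8 : (2 * x ^ 2 - 1) ^ 2 = 1 / 4 := by linarith
      have h9 : x ^ 2 = 3 / 4 := by nlinarith
      have h10 : (x ^ 2) ^ L = 1 / 2 := by
        have := pow_eq_zero_iff (two_ne_zero) |>.mp h7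
        linarith
      rw [h9] at h10
      have q1 : (3 / 4 : ℝ) ^ L = (rr ^ L) ^ 2 := by
        rw [← rr_sq, ← pow_mul, ← pow_mul, mul_comm]
      have q2 := rr_small hL
      have hr0 : 0 ≤ rr ^ L := by have := rr_pos; positivity
      rw [q1] at h10
      nlinarith
    have hsol : Sol L ((x : ℂ) ^ 2) := by
      refine ⟨?_, h1⟩
      rw [norm_pow, Complex.norm_real, Real.norm_eq_abs, sq_abs]
      exact h4.le
    have hne : (y₁ : ℂ) ≠ y₂ := by
      intro h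
      have : y₁ = y₂ := by exact_mod_cast h
      linarith
    have hcases : (x : ℂ) ^ 2 = y₁ ∨ (x : ℂ) ^ 2 = y₂ := by
      by_contra hcon
      push Not at hcon
      exact not_three hL hsol s1 s2 hcon.1 hcon.2 hne
    rcases hcases with h | h
    · rw [← sq1, sq_eq_sq_iff_eq_or_eq_neg] at h
      rcases h with h | h
      · exact Or.inl h
      · exact Or.inr (Or.inl (by rw [h]; push_cast; ring))
    · rw [← sq2, sq_eq_sq_iff_eq_or_eq_neg] at h
      rcases h with h | h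
      · exact Or.inr (Or.inr (Or.inl h))
      · exact Or.inr (Or.inr (Or.inr (by rw [h]; push_cast; ring)))
  · have r1 : ∀ w : ℂ, w ^ 2 = y₁ → aeval w (P (2 * L)) = 0 := by
      intro w hw
      rw [root_iff, hw]
      exact s1.2
    have r2 : ∀ w : ℂ, w ^ 2 = y₂ → aeval w (P (2 * L)) = 0 := by
      intro w hw
      rw [root_iff, hw]
      exact s2.2
    rintro (rfl | rfl | rfl | rfl)
    · exact ⟨r1 _ sq1, by simp⟩
    · exact ⟨r1 _ (by push_cast; rw [neg_sq, sq1]), by simp⟩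
    · exact ⟨r2 _ sq2, by simp⟩
    · exact ⟨r2 _ (by push_cast; rw [neg_sq, sq2]), by simp⟩

include hL in
/-- the non-real roots lie close to the unit circle -/
lemma nonreal_root {z : ℂ} (hz : aeval z (P (2 * L)) = 0) (him : z.im ≠ 0) :
    z ≠ 0 ∧ |2 * Real.log ‖z‖| ≤ 3 / L := by
  have hL1 := hL.1
  have hLpos : (0 : ℝ) < L := by exact_mod_cast (by omega : 0 < L)
  have hz0 : z ≠ 0 := by rintro rfl; simp at him
  have hn : 0 < ‖z‖ := norm_pos_iff.mpr hz0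
  refine ⟨hz0, ?_⟩
  rw [root_iff] at hz
  -- `‖z^2‖ > 3/4`
  have h1 : 3 / 4 < ‖z ^ 2‖ := by
    by_contra hcon
    push Not at hcon
    obtain ⟨y₁, y₂, p1, p2, p3, p4, s1, s2⟩ := real_sols hL
    have hsol : Sol L (z ^ 2) := ⟨hcon, hz⟩
    have hne : (y₁ : ℂ) ≠ y₂ := by
      intro h
      have : y₁ = y₂ := by exact_mod_cast h
      linarith
    have hcases : z ^ 2 = y₁ ∨ z ^ 2 = y₂ := by
      by_contra hcon
      push Not at hcon
      exact not_three hL hsol s1 s2 hcon.1 hcon.2 hne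
    have key : ∀ y : ℝ, 0 < y → z ^ 2 = y → False := by
      intro y hy h
      have : z ^ 2 = ((√y : ℝ) : ℂ) ^ 2 := by
        rw [h, ← Complex.ofReal_pow, Real.sq_sqrt hy.le]
      rw [sq_eq_sq_iff_eq_or_eq_neg] at this
      rcases this with h | h
      · apply him; rw [h]; simp
      · apply him; rw [h]; simp
    rcases hcases with h | h
    · exact key _ p1 h
    · exact key _ (by linarith) h
  -- lower bound
  have h2 : 1 / 8 ≤ ‖z ^ 2‖ ^ L := by
    by_contra hcon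
    push Not at hcon
    have h3 : (z ^ 2) ^ L - (z ^ 2) ^ (2 * L) = (z ^ 2) ^ L * (1 - (z ^ 2) ^ L) := by
      ring
    rw [h3] at hz
    have h4 : ‖2 * z ^ 2 - 1‖ ^ 2 = ‖z ^ 2‖ ^ L * ‖1 - (z ^ 2) ^ L‖ := by
      rw [← norm_pow, hz, norm_mul, norm_pow]
    have h5 : ‖1 - (z ^ 2) ^ L‖ ≤ 1 + ‖z ^ 2‖ ^ L := by
      have := norm_sub_le (1 : ℂ) ((z ^ 2) ^ L)
      rwa [norm_one, norm_pow (z ^ 2)] at this
    have h6 : 2 * ‖z ^ 2‖ - 1 ≤ ‖2 * z ^ 2 - 1‖ := by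
      have := norm_sub_norm_le (2 * z ^ 2) 1
      rwa [norm_mul, Complex.norm_ofNat, norm_one] at this
    have h7 : 0 ≤ ‖z ^ 2‖ ^ L := by positivity
    nlinarith
  -- upper bound
  have h3 : ‖z ^ 2‖ ^ L ≤ 10 := by
    rcases le_or_gt ‖z ^ 2‖ 1 with h | h
    · exact (pow_le_one₀ (norm_nonneg _) h).trans (by norm_num)
    · have h4 : (z ^ 2) ^ (2 * L) = (z ^ 2) ^ L - (2 * z ^ 2 - 1) ^ 2 := by rw [hz]; ring
      have h5 : ‖z ^ 2‖ ^ (2 * L) ≤ ‖z ^ 2‖ ^ L + (2 * ‖z ^ 2‖ + 1) ^ 2 := by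
        have h6 : ‖z ^ 2‖ ^ (2 * L) = ‖(z ^ 2) ^ L - (2 * z ^ 2 - 1) ^ 2‖ := by
          rw [← h4]
          exact (norm_pow _ _).symm
        rw [h6]
        refine (norm_sub_le _ _).trans ?_
        rw [norm_pow (z ^ 2), norm_pow (2 * z ^ 2 - 1)]
        have h7 : ‖2 * z ^ 2 - 1‖ ≤ 2 * ‖z ^ 2‖ + 1 := by
          refine (norm_sub_le _ _).trans ?_
          rw [norm_mul, Complex.norm_ofNat, norm_one]
        gcongr
      have h8 : (2 * ‖z ^ 2‖ + 1) ^ 2 ≤ 9 * ‖z ^ 2‖ ^ 2 := by nlinarith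
      have h9 : ‖z ^ 2‖ ^ 2 ≤ ‖z ^ 2‖ ^ L := pow_le_pow_right₀ h.le hL1
      have h10 : ‖z ^ 2‖ ^ (2 * L) = ‖z ^ 2‖ ^ L * ‖z ^ 2‖ ^ L := by rw [two_mul, pow_add]
      have h11 : 0 < ‖z ^ 2‖ ^ L := by positivity
      rw [h10] at h5
      have h12 : ‖z ^ 2‖ ^ L * ‖z ^ 2‖ ^ L ≤ ‖z ^ 2‖ ^ L * 10 := by linarith
      exact le_of_mul_le_mul_left h12 h11
  -- take logarithms
  have h4 : Real.log (‖z ^ 2‖ ^ L) = L * (2 * Real.log ‖z‖) := by
    rw [Real.log_pow, norm_pow, Real.log_pow]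
    push_cast
    ring
  have e3 : (10 : ℝ) < Real.exp 3 := by
    have h5 : Real.exp 3 = Real.exp 1 ^ 3 := by
      rw [← Real.exp_nat_mul]; norm_num
    have h6 := Real.exp_one_gt_d9
    rw [h5]
    have : (2.7182818283 : ℝ) ^ 3 < Real.exp 1 ^ 3 := pow_lt_pow_left₀ h6 (by norm_num) (by norm_num)
    norm_num at this ⊢
    linarith
  have h5 : Real.log (‖z ^ 2‖ ^ L) ≤ 3 := by
    rw [Real.log_le_iff_le_exp (by positivity)]
    linarith
  have h6 : -3 ≤ Real.log (‖z ^ 2‖ ^ L) := by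
    rw [Real.le_log_iff_exp_le (by positivity), Real.exp_neg]
    have : (Real.exp 3)⁻¹ ≤ 10⁻¹ := inv_anti₀ (by norm_num) e3.le
    linarith
  rw [h4] at h5 h6
  rw [abs_le]
  constructor
  · rw [← neg_div, div_le_iff₀ hLpos]; linarith
  · rw [le_div_iff₀ hLpos]; linarith

end roots

/-! ## The absolute square size -/

open Classical in
/-- the conjugates of `α` in `ℂ`: the roots of its minimal polynomial over `ℚ` -/
noncomputable def conjugates (α : ℂ) : Finset ℂ := ((minpoly ℚ α).aroots ℂ).toFinset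

open Classical in
/-- the real conjugates -/
noncomputable def realConj (α : ℂ) : Finset ℂ := (conjugates α).filter (fun z => z.im = 0)

open Classical in
/-- the non-real conjugates -/
noncomputable def nonrealConj (α : ℂ) : Finset ℂ := (conjugates α).filter (fun z => z.im ≠ 0)

/-- the absolute square size: every real conjugate contributes its square, every pair of
non-real conjugates contributes the common squared modulus once -/
noncomputable def sqSize (α : ℂ) : ℝ :=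
  ∑ z ∈ realConj α, ‖z‖ ^ 2 + (1 / 2) * ∑ z ∈ nonrealConj α, ‖z‖ ^ 2

lemma minpoly_eq (j : ℕ) (α : ℂ) (hα : aeval α (P (4 ^ (j + 1))) = 0) :
    minpoly ℚ α = (P (4 ^ (j + 1))).map (algebraMap ℤ ℚ) := by
  have hK : 3 ≤ 4 ^ (j + 1) := by
    have : 1 ≤ 4 ^ j := Nat.one_le_pow _ _ (by norm_num)
    rw [pow_succ]; omega
  have hm := P_monic _ hK
  symm
  apply minpoly.eq_of_irreducible_of_monic
  · exact (hm.irreducible_iff_irreducible_map_fraction_map).mp (P_irreducible j)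
  · rw [aeval_map_algebraMap]; exact hα
  · exact hm.map _

lemma mem_conjugates (j : ℕ) (α : ℂ) (hα : aeval α (P (4 ^ (j + 1))) = 0) (z : ℂ) :
    z ∈ conjugates α ↔ aeval z (P (4 ^ (j + 1))) = 0 := by
  have hK : 3 ≤ 4 ^ (j + 1) := by
    have : 1 ≤ 4 ^ j := Nat.one_le_pow _ _ (by norm_num)
    rw [pow_succ]; omega
  rw [conjugates, Multiset.mem_toFinset, mem_aroots, minpoly_eq j α hα, aeval_map_algebraMap]
  exact ⟨fun h => h.2, fun h => ⟨((P_monic _ hK).map _).ne_zero, h⟩⟩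

/-- number and product of the conjugates -/
lemma conj_card_prod (j : ℕ) (α : ℂ) (hα : aeval α (P (4 ^ (j + 1))) = 0) :
    (conjugates α).card = 2 * 4 ^ (j + 1) ∧ ∏ z ∈ conjugates α, ‖z‖ = 1 := by
  classical
  have hK : 3 ≤ 4 ^ (j + 1) := by
    have : 1 ≤ 4 ^ j := Nat.one_le_pow _ _ (by norm_num)
    rw [pow_succ]; omega
  have hm := P_monic _ hK
  have hmin := minpoly_eq j α hα
  have hirr : Irreducible (minpoly ℚ α) := by
    rw [hmin]
    exact (hm.irreducible_iff_irreducible_map_fraction_map).mp (P_irreducible j)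
  have hsep : (minpoly ℚ α).Separable := hirr.separable
  have hnodup : ((minpoly ℚ α).aroots ℂ).Nodup := nodup_roots hsep.map
  have hmap : (minpoly ℚ α).map (algebraMap ℚ ℂ) = (P (4 ^ (j + 1))).map (algebraMap ℤ ℂ) := by
    rw [hmin, Polynomial.map_map, ← IsScalarTower.algebraMap_eq]
  have hm' : ((P (4 ^ (j + 1))).map (algebraMap ℤ ℂ)).Monic := hm.map _
  have hdeg : ((P (4 ^ (j + 1))).map (algebraMap ℤ ℂ)).natDegree = 2 * 4 ^ (j + 1) := by
    rw [hm.natDegree_map, P_natDegree _ hK]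
  have hroots : (minpoly ℚ α).aroots ℂ = ((P (4 ^ (j + 1))).map (algebraMap ℤ ℂ)).roots := by
    rw [aroots, hmap]
  have hsplit := IsAlgClosed.splits ((P (4 ^ (j + 1))).map (algebraMap ℤ ℂ))
  constructor
  · rw [conjugates, Multiset.toFinset_card_of_nodup hnodup, hroots, ← hdeg]
    exact hsplit.natDegree_eq_card_roots.symm
  · have h1 := hsplit.coeff_zero_eq_prod_roots_of_monic hm'
    have h2 : ((P (4 ^ (j + 1))).map (algebraMap ℤ ℂ)).coeff 0 = 1 := by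
      rw [coeff_map, P, coeff_zero_eq_eval_zero]
      simp only [eval_add, eval_neg, eval_pow, eval_X, eval_sub, eval_mul, eval_one]
      rw [zero_pow (by omega), zero_pow (by omega)]
      norm_num
    rw [h2] at h1
    have h3 := congrArg (fun w : ℂ => ‖w‖) h1
    simp only [norm_mul, norm_pow, norm_neg, norm_one, one_pow, one_mul] at h3
    have h4 : ∏ z ∈ conjugates α, ‖z‖ = (((minpoly ℚ α).aroots ℂ).map (fun z => ‖z‖)).prod := by
      show ((conjugates α).val.map (fun z => ‖z‖)).prod = _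
      rw [conjugates, Multiset.toFinset_val, hnodup.dedup]
    have h5 : (((minpoly ℚ α).aroots ℂ).map (fun z => ‖z‖)).prod =
        ‖((minpoly ℚ α).aroots ℂ).prod‖ :=
      (map_multiset_prod (normHom : ℂ →*₀ ℝ) _).symm
    rw [h4, h5, hroots]
    exact h3.symm

/-- estimate of the absolute square size -/
lemma sqSize_le (j : ℕ) (α : ℂ) (hα : aeval α (P (4 ^ (j + 1))) = 0) (hL : Good (2 * 4 ^ j))
    (hL3 : 3 ≤ 2 * 4 ^ j) :
    (realConj α).card = 4 ∧
    sqSize α ≤ (4 ^ (j + 1) : ℝ) + 2 * Real.log 2 + 12 * rr ^ (2 * 4 ^ j) +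
      18 / ((2 * 4 ^ j : ℕ) : ℝ) := by
  classical
  set L := 2 * 4 ^ j with hLdef
  have hK : 4 ^ (j + 1) = 2 * L := by rw [hLdef, pow_succ]; ring
  have hLpos : (0 : ℝ) < L := by exact_mod_cast (by omega : 0 < L)
  obtain ⟨y₁, y₂, p1, p2, p3, p4, s1, s2⟩ := real_sols hL
  have hmem := mem_conjugates j α hα
  obtain ⟨hcard, hprod⟩ := conj_card_prod j α hα
  rw [hK] at hmem hcard
  have hreal : realConj α = {((√y₁ : ℝ) : ℂ), ((-√y₁ : ℝ) : ℂ), ((√y₂ : ℝ) : ℂ),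
      ((-√y₂ : ℝ) : ℂ)} := by
    ext z
    rw [realConj, Finset.mem_filter, hmem, real_root_iff hL p1 p2 p3 p4 s1 s2]
    simp only [Finset.mem_insert, Finset.mem_singleton]
  have q1 : 0 < √y₁ := Real.sqrt_pos.mpr p1
  have q2 : √y₁ < √y₂ := Real.sqrt_lt_sqrt p1.le (by linarith)
  have n1 : ((√y₁ : ℝ) : ℂ) ∉ ({((-√y₁ : ℝ) : ℂ), ((√y₂ : ℝ) : ℂ), ((-√y₂ : ℝ) : ℂ)} : Finset ℂ) := by
    simp only [Finset.mem_insert, Finset.mem_singleton, Complex.ofReal_inj, not_or]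
    refine ⟨?_, ?_, ?_⟩ <;> intro h <;> linarith
  have n2 : ((-√y₁ : ℝ) : ℂ) ∉ ({((√y₂ : ℝ) : ℂ), ((-√y₂ : ℝ) : ℂ)} : Finset ℂ) := by
    simp only [Finset.mem_insert, Finset.mem_singleton, Complex.ofReal_inj, not_or]
    refine ⟨?_, ?_⟩ <;> intro h <;> linarith
  have n3 : ((√y₂ : ℝ) : ℂ) ∉ ({((-√y₂ : ℝ) : ℂ)} : Finset ℂ) := by
    simp only [Finset.mem_singleton, Complex.ofReal_inj]
    intro h; linarith
  have hcard4 : (realConj α).card = 4 := by
    rw [hreal, Finset.card_insert_of_notMem n1, Finset.card_insert_of_notMem n2,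
      Finset.card_insert_of_notMem n3, Finset.card_singleton]
  refine ⟨hcard4, ?_⟩
  have nr : ∀ x : ℝ, ‖(x : ℂ)‖ = |x| := fun x => by rw [Complex.norm_real, Real.norm_eq_abs]
  have a1 : |√y₁| = √y₁ := abs_of_pos q1
  have a2 : |√y₂| = √y₂ := abs_of_pos (q1.trans q2)
  have b1 : √y₁ ^ 2 = y₁ := Real.sq_sqrt p1.le
  have b2 : √y₂ ^ 2 = y₂ := Real.sq_sqrt (by linarith)
  have hsumreal : ∑ z ∈ realConj α, ‖z‖ ^ 2 = 2 * y₁ + 2 * y₂ := by
    rw [hreal, Finset.sum_insert n1, Finset.sum_insert n2, Finset.sum_insert n3,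
      Finset.sum_singleton, nr, nr, nr, nr, abs_neg, abs_neg, a1, a2, b1, b2]
    ring
  have hprodreal : ∏ z ∈ realConj α, ‖z‖ = y₁ * y₂ := by
    rw [hreal, Finset.prod_insert n1, Finset.prod_insert n2, Finset.prod_insert n3,
      Finset.prod_singleton, nr, nr, nr, nr, abs_neg, abs_neg, a1, a2]
    calc √y₁ * (√y₁ * (√y₂ * √y₂)) = √y₁ ^ 2 * √y₂ ^ 2 := by ring
      _ = y₁ * y₂ := by rw [b1, b2]
  set r := rr ^ L with hr
  have hr0 : 0 ≤ r := by have := rr_pos; positivity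
  have hr8 : r ≤ 1 / 8 := rr_small hL
  obtain ⟨m1, m2⟩ := sol_norm s1
  obtain ⟨m3, m4⟩ := sol_norm s2
  rw [nr, abs_of_pos p1] at m1 m2
  rw [nr, abs_of_pos (by linarith)] at m3 m4
  -- the non-real part
  have hsplit : ∏ z ∈ nonrealConj α, ‖z‖ = (y₁ * y₂)⁻¹ := by
    have h1 : (∏ z ∈ realConj α, ‖z‖) * ∏ z ∈ nonrealConj α, ‖z‖ = 1 := by
      rw [← hprod]
      exact Finset.prod_filter_mul_prod_filter_not _ _ _
    rw [hprodreal] at h1
    exact eq_inv_of_mul_eq_one_right h1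
  have hcardnon : (nonrealConj α).card + 4 = 4 * L := by
    have h1 : (realConj α).card + (nonrealConj α).card = (conjugates α).card :=
      Finset.card_filter_add_card_filter_not _
    rw [hcard4, hcard] at h1
    omega
  have hnon : ∀ z ∈ nonrealConj α, z ≠ 0 ∧ |2 * Real.log ‖z‖| ≤ 3 / L := by
    intro z hz
    rw [nonrealConj, Finset.mem_filter, hmem] at hz
    exact nonreal_root hL hz.1 hz.2
  have hlogsum : ∑ z ∈ nonrealConj α, Real.log ‖z‖ = - Real.log (y₁ * y₂) := by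
    rw [← Real.log_inv, ← hsplit, Real.log_prod]
    intro z hz
    exact norm_ne_zero_iff.mpr (hnon z hz).1
  have hterm : ∀ z ∈ nonrealConj α, ‖z‖ ^ 2 ≤ 1 + 2 * Real.log ‖z‖ + 9 / L ^ 2 := by
    intro z hz
    obtain ⟨h1, h2⟩ := hnon z hz
    have h3 : 0 < ‖z‖ := norm_pos_iff.mpr h1
    have h4 : ‖z‖ ^ 2 = Real.exp (2 * Real.log ‖z‖) := by
      rw [two_mul, Real.exp_add, Real.exp_log h3, pow_two]
    have h5 : |2 * Real.log ‖z‖| ≤ 1 := by
      refine h2.trans ?_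
      rw [div_le_one hLpos]
      exact_mod_cast hL3
    have h6 := (abs_le.mp (Real.abs_exp_sub_one_sub_id_le h5)).2
    have h7 : (2 * Real.log ‖z‖) ^ 2 ≤ (3 / L) ^ 2 := sq_le_sq' (by
      have := (abs_le.mp h2).1; linarith) (abs_le.mp h2).2
    have h8 : (3 / (L : ℝ)) ^ 2 = 9 / L ^ 2 := by rw [div_pow]; norm_num
    rw [h4]
    linarith
  have hsumnon : ∑ z ∈ nonrealConj α, ‖z‖ ^ 2 ≤
      (4 * L - 4) + 2 * (- Real.log (y₁ * y₂)) + 36 / L := by
    have h0 : (nonrealConj α).card = 4 * L - 4 := by omega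
    have h1 : ((nonrealConj α).card : ℝ) = 4 * L - 4 := by
      have : ((nonrealConj α).card : ℝ) + 4 = 4 * L := by exact_mod_cast hcardnon
      linarith
    refine (Finset.sum_le_sum hterm).trans ?_
    rw [Finset.sum_add_distrib, Finset.sum_add_distrib, ← Finset.mul_sum, hlogsum,
      Finset.sum_const, Finset.sum_const, nsmul_eq_mul, nsmul_eq_mul, h1]
    have h2 : (4 * (L : ℝ) - 4) * (9 / L ^ 2) ≤ 36 / L := by
      have : (4 * (L : ℝ)) * (9 / L ^ 2) = 36 / L := by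
        field_simp; ring
      rw [← this]
      have : (0 : ℝ) ≤ 9 / L ^ 2 := by positivity
      nlinarith
    linarith
  have hlog : - Real.log (y₁ * y₂) ≤ 2 * Real.log 2 + 8 * r := by
    have h1 : (1 / 2 - r) * (1 / 2 - r) ≤ y₁ * y₂ := mul_le_mul m1 m3 (by linarith) p1.le
    have h2 : Real.log ((1 / 2 - r) * (1 / 2 - r)) ≤ Real.log (y₁ * y₂) :=
      Real.log_le_log (by nlinarith) h1
    have h3 : Real.log ((1 / 2 - r) * (1 / 2 - r)) = 2 * Real.log (1 / 2 - r) := by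
      rw [Real.log_mul (by linarith) (by linarith)]; ring
    have h4 : Real.log (1 / 2 - r) = - Real.log 2 + Real.log (1 - 2 * r) := by
      rw [← Real.log_inv, ← Real.log_mul (by norm_num) (by linarith)]
      congr 1
      ring
    have h5 : - Real.log (1 - 2 * r) ≤ 4 * r := by
      rw [← Real.log_inv]
      have h6 : 0 < 1 - 2 * r := by linarith
      refine (Real.log_le_sub_one_of_pos (inv_pos.mpr h6)).trans ?_
      rw [sub_le_iff_le_add, inv_le_comm₀ h6 (by linarith), ← one_div, div_le_iff₀ (by linarith)]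
      nlinarith
    linarith
  have hKr : ((4 : ℝ) ^ (j + 1)) = 2 * L := by exact_mod_cast hK
  rw [sqSize, hsumreal, hKr]
  have h18 : (1 / 2 : ℝ) * (36 / L) = 18 / L := by ring
  have h19 : ((2 * 4 ^ j : ℕ) : ℝ) = L := by rw [hLdef]
  rw [h19]
  linarith

lemma bound_ge (K : ℕ) (hK : 0 < K) :
    (K : ℝ) + 2 * Real.log 2 ≤ ((2 * K : ℕ) : ℝ) * 2 ^ ((4 : ℝ) / ((2 * K : ℕ) : ℝ) - 1) := by
  have hKr : (0 : ℝ) < K := by exact_mod_cast hK
  push_cast
  rw [Real.rpow_sub (by norm_num), Real.rpow_one, Real.rpow_def_of_pos (by norm_num)]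
  have h1 := Real.add_one_le_exp (Real.log 2 * (4 / (2 * (K : ℝ))))
  have h2 : (2 * (K : ℝ)) * (Real.exp (Real.log 2 * (4 / (2 * (K : ℝ)))) / 2) =
      K * Real.exp (Real.log 2 * (4 / (2 * (K : ℝ)))) := by ring
  rw [h2]
  have h3 : (K : ℝ) * (Real.log 2 * (4 / (2 * (K : ℝ))) + 1) = K + 2 * Real.log 2 := by
    field_simp
    ring
  rw [← h3]
  gcongr

/-- **Answer to Q1 (yes, with `s = 4`).**  The lower bound `n 2^(s/n-1)` for the absolute square
size is sharp for `s = 4`. -/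
theorem result (ε : ℝ) (hε : 0 < ε) :
    ∃ α : ℂ, α ≠ 0 ∧ IsIntegral ℤ α ∧ 2 ≤ (minpoly ℚ α).natDegree ∧ (realConj α).card = 4 ∧
      sqSize α < ((minpoly ℚ α).natDegree : ℝ) *
        2 ^ ((4 : ℝ) / ((minpoly ℚ α).natDegree : ℝ) - 1) + ε := by
  -- choice of `j`
  have hlim : Tendsto (fun j : ℕ => 2 * 4 ^ j) atTop atTop := by
    apply tendsto_atTop_mono (f := fun j : ℕ => j)
    · intro j
      have : j < 4 ^ j := Nat.lt_pow_self (by norm_num)
      omega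
    · exact tendsto_id
  have hsmall : Tendsto (fun L : ℕ => 12 * rr ^ L + 18 / (L : ℝ)) atTop (𝓝 (12 * 0 + 0)) := by
    apply Tendsto.add
    · exact (tendsto_pow_atTop_nhds_zero_of_lt_one rr_pos.le rr_lt).const_mul 12
    · exact tendsto_const_div_atTop_nhds_zero_nat 18
  rw [mul_zero, add_zero] at hsmall
  have hev := ((good_eventually.and (hsmall.eventually (gt_mem_nhds hε))).and
    (eventually_ge_atTop 3))
  obtain ⟨j, ⟨hgood, hs⟩, h3⟩ := (hlim.eventually hev).exists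
  have hK : 3 ≤ 4 ^ (j + 1) := by
    have : 1 ≤ 4 ^ j := Nat.one_le_pow _ _ (by norm_num)
    rw [pow_succ]; omega
  have hm := P_monic _ hK
  obtain ⟨α, hα⟩ : ∃ α : ℂ, aeval α (P (4 ^ (j + 1))) = 0 := by
    have hdeg : ((P (4 ^ (j + 1))).map (algebraMap ℤ ℂ)).degree ≠ 0 := by
      rw [hm.degree_map, degree_eq_natDegree hm.ne_zero, P_natDegree _ hK]
      norm_cast
      omega
    obtain ⟨α, hα⟩ := IsAlgClosed.exists_root _ hdeg
    refine ⟨α, ?_⟩
    rwa [IsRoot, eval_map_algebraMap] at hα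
  have hn : (minpoly ℚ α).natDegree = 2 * 4 ^ (j + 1) := by
    rw [minpoly_eq j α hα, hm.natDegree_map, P_natDegree _ hK]
  obtain ⟨hc, hsz⟩ := sqSize_le j α hα hgood h3
  refine ⟨α, ?_, ⟨P (4 ^ (j + 1)), hm, by rwa [← aeval_def]⟩, by rw [hn]; omega, hc, ?_⟩
  · rintro rfl
    rw [P] at hα
    simp only [map_add, map_neg, map_pow, aeval_X, map_sub, map_mul, map_one] at hα
    rw [zero_pow (by omega), zero_pow (by omega)] at hα
    norm_num at hα
  · rw [hn]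
    have hb := bound_ge (4 ^ (j + 1)) (by positivity)
    push_cast at hb hsz hs ⊢
    linarith

end Pool.Agent.Results.MP_bf7c2b_nt.SharpForFour
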